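import Pool.Agent.Work.MP_c264fd_pr_helper94.Det

/-!
# Block AvgMoment: moment bound for time averages
-/

open MeasureTheory ProbabilityTheory Filter Topology
open scoped ENNReal NNReal

namespace Pool.BDep

lemma le_run_of_mem (l : List ℤ) : ∀ (h : Config) (y z : ℤ), (z = y - 1 ∨ z = y + 1) → y ∈ l →
    h z ≤ run l h y := by
  induction l with
  | nil => intro h y z _ hy; simp at hy
  | cons a l ih =>
    intro h y z hz hy
    rw [run_cons]
    by_cases ha : a = y
    · subst ha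
      refine le_trans ?_ (le_run l _ a)
      rw [ring_self]
      rcases hz with rfl | rfl <;> omega
    · have hy' : y ∈ l := by
        rcases List.mem_cons.1 hy with h1 | h1
        · exact absurd h1.symm ha
        · exact h1
      exact (le_ring a h z).trans (ih (ring a h) y z hz hy')

lemma exp_neg_one_le_half : Real.exp (-1) ≤ 1 / 2 := by
  have h1 : (2 : ℝ) ≤ Real.exp 1 := by
    have := Real.add_one_le_exp (1 : ℝ)
    linarith
  rw [Real.exp_neg, one_div]
  exact inv_anti₀ (by norm_num) h1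

lemma rho_singleton_nil (hInt : Stmt_RhoInt) (y : ℤ) :
    rho {y} 1 {([] : List ℤ)} = ENNReal.ofReal (Real.exp (-1)) := by
  have h1 : rho {y} 1 {([] : List ℤ)} = ∫⁻ l, Set.indicator {([] : List ℤ)} 1 l ∂(rho {y} 1) := by
    rw [lintegral_indicator_one (measurableSet_singleton _)]
  rw [h1, hInt, tsum_eq_single []]
  · simp [wt]
  · intro l hl
    simp [hl]

lemma half_le_prob_mem (hInt : Stmt_RhoInt) (hFil : Stmt_RhoFilter) (hProb : Stmt_RhoProb)
    {Λ : Finset ℤ} {y : ℤ} (hy : y ∈ Λ) : (2 : ℝ≥0∞)⁻¹ ≤ rho Λ 1 {l | y ∈ l} := by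
  have := hProb Λ 1 zero_le_one
  have h0 : rho Λ 1 {l | y ∈ l}ᶜ ≤ 2⁻¹ := by
    have hset : {l : List ℤ | y ∈ l}ᶜ =
        (fun l : List ℤ => l.filter (· ∈ ({y} : Finset ℤ))) ⁻¹' {[]} := by
      ext l
      simp only [Set.mem_compl_iff, Set.mem_ofPred_eq, Set.mem_preimage, Set.mem_singleton_iff,
        List.filter_eq_nil_iff, Finset.mem_singleton, decide_eq_true_eq]
      constructor
      · intro h a ha hay
        subst hay
        exact h ha
      · intro h hyl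
        exact h y hyl rfl
    rw [hset, ← Measure.map_apply (Measurable.of_discrete) (measurableSet_singleton _),
      hFil {y} Λ 1 zero_le_one (by simpa using hy), rho_singleton_nil hInt]
    refine le_trans (ENNReal.ofReal_le_ofReal exp_neg_one_le_half) ?_
    rw [one_div, ENNReal.ofReal_inv_of_pos (by norm_num)]
    simp
  have h1 : rho Λ 1 {l | y ∈ l} = 1 - rho Λ 1 {l | y ∈ l}ᶜ := by
    rw [← prob_compl_eq_one_sub (MeasurableSet.of_discrete), compl_compl]
  rw [h1]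
  calc (2 : ℝ≥0∞)⁻¹ = 1 - 2⁻¹ := by
        rw [ENNReal.one_sub_inv_two]
    _ ≤ 1 - rho Λ 1 {l | y ∈ l}ᶜ := tsub_le_tsub_left h0 1

lemma uu_add (hAdd : Stmt_RhoAdd) (hProb : Stmt_RhoProb) (Λ : Finset ℤ) (y : ℤ) {s t : ℝ}
    (hs : 0 ≤ s) (ht : 0 ≤ t) :
    uu Λ y (s + t) = ∫⁻ l, ∫⁻ l', ENNReal.ofReal ((run l' (run l lin) y - y : ℤ) : ℝ)
      ∂(rho Λ t) ∂(rho Λ s) := by
  have := hProb Λ s hs
  have := hProb Λ t ht
  unfold uu
  rw [← hAdd Λ s t hs ht, lintegral_map (Measurable.of_discrete) (Measurable.of_discrete),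
    lintegral_prod _ (Measurable.of_discrete).aemeasurable]
  simp only [run_append]

lemma growth (hInt : Stmt_RhoInt) (hFil : Stmt_RhoFilter) (hProb : Stmt_RhoProb)
    (hAdd : Stmt_RhoAdd) {Λ : Finset ℤ} {y z : ℤ} (hy : y ∈ Λ) (hz : z = y - 1 ∨ z = y + 1)
    {t : ℝ} (ht : 0 ≤ t) :
    (2 : ℝ≥0∞)⁻¹ * ∫⁻ l, ENNReal.ofReal ((run l lin z - run l lin y : ℤ) : ℝ) ∂(rho Λ t)
      + uu Λ y t ≤ uu Λ y (t + 1) := by
  have := hProb Λ t ht
  have := hProb Λ 1 zero_le_one
  rw [uu_add hAdd hProb Λ y ht zero_le_one]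
  rw [← lintegral_const_mul _ (Measurable.of_discrete)]
  unfold uu
  rw [← lintegral_add_left (Measurable.of_discrete)]
  apply lintegral_mono
  intro l
  have h1 : ∀ l' : List ℤ, ENNReal.ofReal ((run l lin y - y : ℤ) : ℝ) +
      Set.indicator {l' : List ℤ | y ∈ l'}
        (fun _ => ENNReal.ofReal ((run l lin z - run l lin y : ℤ) : ℝ)) l'
      ≤ ENNReal.ofReal ((run l' (run l lin) y - y : ℤ) : ℝ) := by
    intro l'
    have h2 : y ≤ run l lin y := le_run l lin y
    have h3 : run l lin y ≤ run l' (run l lin) y := le_run l' _ y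
    by_cases hm : y ∈ l'
    · have h4 : run l lin z ≤ run l' (run l lin) y := le_run_of_mem l' _ y z hz hm
      rw [Set.indicator_of_mem (by exact hm)]
      rcases le_total (run l lin z) (run l lin y) with h5 | h5
      · rw [ENNReal.ofReal_of_nonpos (p := ((run l lin z - run l lin y : ℤ) : ℝ))
          (by exact_mod_cast (by omega : run l lin z - run l lin y ≤ 0)), add_zero]
        apply ENNReal.ofReal_le_ofReal
        exact_mod_cast (by omega : run l lin y - y ≤ run l' (run l lin) y - y)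
      · rw [← ENNReal.ofReal_add
          (by exact_mod_cast (by omega : 0 ≤ run l lin y - y))
          (by exact_mod_cast (by omega : 0 ≤ run l lin z - run l lin y))]
        apply ENNReal.ofReal_le_ofReal
        exact_mod_cast (by omega : run l lin y - y + (run l lin z - run l lin y)
          ≤ run l' (run l lin) y - y)
    · rw [Set.indicator_of_notMem (by exact hm), add_zero]
      apply ENNReal.ofReal_le_ofReal
      exact_mod_cast (by omega : run l lin y - y ≤ run l' (run l lin) y - y)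
  calc 2⁻¹ * ENNReal.ofReal ((run l lin z - run l lin y : ℤ) : ℝ) +
        ENNReal.ofReal ((run l lin y - y : ℤ) : ℝ)
      ≤ ENNReal.ofReal ((run l lin z - run l lin y : ℤ) : ℝ) * rho Λ 1 {l' | y ∈ l'} +
        ENNReal.ofReal ((run l lin y - y : ℤ) : ℝ) := by
        rw [mul_comm]
        gcongr
        exact half_le_prob_mem hInt hFil hProb hy
    _ = ∫⁻ l', (ENNReal.ofReal ((run l lin y - y : ℤ) : ℝ) +
      Set.indicator {l' : List ℤ | y ∈ l'}
        (fun _ => ENNReal.ofReal ((run l lin z - run l lin y : ℤ) : ℝ)) l') ∂(rho Λ 1) := by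
        rw [lintegral_add_left (Measurable.of_discrete),
          lintegral_indicator (MeasurableSet.of_discrete)]
        simp [add_comm]
    _ ≤ _ := lintegral_mono h1

/-- telescoping with a lag -/
lemma telescope_lag (N M : ℕ) (u e : ℕ → ℝ≥0∞) (B : ℝ≥0∞) (hB : B ≠ ∞)
    (hle : ∀ j, e j + u j ≤ u (j + M)) (hu : ∀ j < N + M, u j ≤ B) :
    ∑ j ∈ Finset.range N, e j ≤ M * B := by
  have h1 : ∑ j ∈ Finset.range N, e j + ∑ j ∈ Finset.range N, u j
      ≤ ∑ j ∈ Finset.range N, u (M + j) := by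
    rw [← Finset.sum_add_distrib]
    apply Finset.sum_le_sum
    intro j _
    rw [add_comm M j]
    exact hle j
  have h2 : ∑ j ∈ Finset.range N, u (M + j) ≤ ∑ j ∈ Finset.range (M + N), u j := by
    rw [Finset.sum_range_add]
    exact le_add_self
  have h3 : ∑ j ∈ Finset.range (M + N), u j
      = ∑ j ∈ Finset.range N, u j + ∑ j ∈ Finset.range M, u (N + j) := by
    rw [add_comm M N, Finset.sum_range_add]
  have h4 : ∑ j ∈ Finset.range M, u (N + j) ≤ M * B := by
    calc ∑ j ∈ Finset.range M, u (N + j) ≤ ∑ j ∈ Finset.range M, B := by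
          apply Finset.sum_le_sum
          intro j hj
          rw [Finset.mem_range] at hj
          exact hu _ (by omega)
      _ = M * B := by simp
  have h5 : ∑ j ∈ Finset.range N, u j ≠ ∞ := by
    have : ∑ j ∈ Finset.range N, u j ≤ N * B := by
      calc ∑ j ∈ Finset.range N, u j ≤ ∑ j ∈ Finset.range N, B := by
            apply Finset.sum_le_sum
            intro j hj
            rw [Finset.mem_range] at hj
            exact hu _ (by omega)
        _ = N * B := by simp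
    exact ne_top_of_le_ne_top (ENNReal.mul_ne_top (by simp) hB) this
  have h6 : ∑ j ∈ Finset.range N, e j + ∑ j ∈ Finset.range N, u j
      ≤ M * B + ∑ j ∈ Finset.range N, u j := by
    calc _ ≤ ∑ j ∈ Finset.range (M + N), u j := h1.trans h2
      _ = ∑ j ∈ Finset.range N, u j + ∑ j ∈ Finset.range M, u (N + j) := h3
      _ ≤ ∑ j ∈ Finset.range N, u j + M * B := by gcongr
      _ = _ := add_comm _ _
  exact (ENNReal.add_le_add_iff_right h5).1 h6

lemma sum_growth (hInt : Stmt_RhoInt) (hFil : Stmt_RhoFilter) (hProb : Stmt_RhoProb)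
    (hAdd : Stmt_RhoAdd) (hUU : Stmt_UU) {Λ : Finset ℤ} {y z : ℤ} (hy : y ∈ Λ)
    (hz : z = y - 1 ∨ z = y + 1) (k : ℕ) :
    ∑ j ∈ Finset.range (4 ^ k),
      ∫⁻ l, ENNReal.ofReal ((run l lin z - run l lin y : ℤ) : ℝ) ∂(rho Λ ((j : ℝ) / 2 ^ k))
      ≤ 2 * (2 ^ k * UU (2 ^ k + 1)) := by
  obtain ⟨hU1, -, hU3, C, hC, hU4⟩ := hUU
  have hfin : UU (2 ^ k + 1) ≠ ∞ :=
    ne_top_of_le_ne_top ENNReal.ofReal_ne_top (hU4 _ (by positivity))
  have key := telescope_lag (4 ^ k) (2 ^ k) (fun j => uu Λ y ((j : ℝ) / 2 ^ k))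
    (fun j => (2 : ℝ≥0∞)⁻¹ *
      ∫⁻ l, ENNReal.ofReal ((run l lin z - run l lin y : ℤ) : ℝ) ∂(rho Λ ((j : ℝ) / 2 ^ k)))
    (UU (2 ^ k + 1)) hfin ?_ ?_
  · rw [← Finset.mul_sum] at key
    simp only [Nat.cast_pow, Nat.cast_ofNat] at key
    have h2 : (2 : ℝ≥0∞) * (2⁻¹ * ∑ j ∈ Finset.range (4 ^ k),
      ∫⁻ l, ENNReal.ofReal ((run l lin z - run l lin y : ℤ) : ℝ) ∂(rho Λ ((j : ℝ) / 2 ^ k)))
      = ∑ j ∈ Finset.range (4 ^ k),
      ∫⁻ l, ENNReal.ofReal ((run l lin z - run l lin y : ℤ) : ℝ) ∂(rho Λ ((j : ℝ) / 2 ^ k)) := by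
      rw [← mul_assoc, ENNReal.mul_inv_cancel (by simp) (by simp), one_mul]
    rw [← h2]
    exact mul_le_mul' le_rfl key
  · intro j
    have hlag : (((j + 2 ^ k : ℕ) : ℝ) / 2 ^ k) = (j : ℝ) / 2 ^ k + 1 := by
      push_cast
      field_simp
    simp only [hlag]
    have := growth hInt hFil hProb hAdd hy hz (t := (j : ℝ) / 2 ^ k) (by positivity)
    push_cast at this ⊢
    exact this
  · intro j hj
    refine (hU1 Λ y _ (by positivity)).trans (hU3 _ _ (by positivity) ?_)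
    have h4 : (4 : ℝ) ^ k = 2 ^ k * 2 ^ k := by
      rw [← mul_pow]; norm_num
    have hj' : (j : ℝ) ≤ 2 ^ k * 2 ^ k + 2 ^ k := by
      rw [← h4]
      exact_mod_cast hj.le
    rw [div_le_iff₀ (by positivity)]
    nlinarith

lemma abs_step (a b c : ℤ) : ENNReal.ofReal |((a - c : ℤ) : ℝ)| ≤
    ENNReal.ofReal |((b - c : ℤ) : ℝ)| +
      (ENNReal.ofReal ((a - b : ℤ) : ℝ) + ENNReal.ofReal ((b - a : ℤ) : ℝ)) := by
  have h1 : ENNReal.ofReal |((a - c : ℤ) : ℝ)| ≤
      ENNReal.ofReal (|((b - c : ℤ) : ℝ)| + |((a - b : ℤ) : ℝ)|) := by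
    apply ENNReal.ofReal_le_ofReal
    push_cast
    have := abs_add_le ((b : ℝ) - c) ((a : ℝ) - b)
    have e : (b : ℝ) - c + (a - b) = a - c := by ring
    rw [e] at this
    exact this
  refine h1.trans ?_
  rw [ENNReal.ofReal_add (abs_nonneg _) (abs_nonneg _)]
  gcongr
  rcases le_total 0 ((a : ℝ) - b) with h | h
  · push_cast
    rw [abs_of_nonneg h]
    exact le_self_add
  · push_cast
    rw [abs_of_nonpos h, neg_sub]
    exact le_add_self

lemma sum_abs (hInt : Stmt_RhoInt) (hFil : Stmt_RhoFilter) (hProb : Stmt_RhoProb)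
    (hAdd : Stmt_RhoAdd) (hUU : Stmt_UU) (n k : ℕ) (s : ℤ) (hs : s = 1 ∨ s = -1) (a : ℕ) :
    a ≤ n → ∑ j ∈ Finset.range (4 ^ k),
      ∫⁻ l, ENNReal.ofReal |((run l lin (s * a) - run l lin 0 : ℤ) : ℝ)|
        ∂(rho (box n) ((j : ℝ) / 2 ^ k))
      ≤ a * (4 * (2 ^ k * UU (2 ^ k + 1))) := by
  induction a with
  | zero => intro _; simp
  | succ a ih =>
    intro ha
    have hstep : ∀ j : ℕ,
        ∫⁻ l, ENNReal.ofReal |((run l lin (s * (a + 1 : ℕ)) - run l lin 0 : ℤ) : ℝ)|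
        ∂(rho (box n) ((j : ℝ) / 2 ^ k)) ≤
        ∫⁻ l, ENNReal.ofReal |((run l lin (s * a) - run l lin 0 : ℤ) : ℝ)|
          ∂(rho (box n) ((j : ℝ) / 2 ^ k)) +
        (∫⁻ l, ENNReal.ofReal ((run l lin (s * (a + 1 : ℕ)) - run l lin (s * a) : ℤ) : ℝ)
          ∂(rho (box n) ((j : ℝ) / 2 ^ k)) +
        ∫⁻ l, ENNReal.ofReal ((run l lin (s * a) - run l lin (s * (a + 1 : ℕ)) : ℤ) : ℝ)
          ∂(rho (box n) ((j : ℝ) / 2 ^ k))) := by
      intro j
      rw [← lintegral_add_left (Measurable.of_discrete),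
        ← lintegral_add_left (Measurable.of_discrete)]
      apply lintegral_mono
      intro l
      exact abs_step _ _ _
    have hm1 : s * (a : ℤ) ∈ box n := by
      rw [box, Finset.mem_Icc]
      rcases hs with rfl | rfl <;> omega
    have hm2 : s * ((a + 1 : ℕ) : ℤ) ∈ box n := by
      rw [box, Finset.mem_Icc]
      rcases hs with rfl | rfl <;> omega
    have g1 := sum_growth hInt hFil hProb hAdd hUU (Λ := box n) (y := s * (a : ℤ))
      (z := s * ((a + 1 : ℕ) : ℤ)) hm1 (by push_cast; rcases hs with rfl | rfl <;> omega) k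
    have g2 := sum_growth hInt hFil hProb hAdd hUU (Λ := box n) (y := s * ((a + 1 : ℕ) : ℤ))
      (z := s * (a : ℤ)) hm2 (by push_cast; rcases hs with rfl | rfl <;> omega) k
    calc _ ≤ ∑ j ∈ Finset.range (4 ^ k),
        (∫⁻ l, ENNReal.ofReal |((run l lin (s * a) - run l lin 0 : ℤ) : ℝ)|
          ∂(rho (box n) ((j : ℝ) / 2 ^ k)) +
        (∫⁻ l, ENNReal.ofReal ((run l lin (s * (a + 1 : ℕ)) - run l lin (s * a) : ℤ) : ℝ)
          ∂(rho (box n) ((j : ℝ) / 2 ^ k)) +
        ∫⁻ l, ENNReal.ofReal ((run l lin (s * a) - run l lin (s * (a + 1 : ℕ)) : ℤ) : ℝ)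
          ∂(rho (box n) ((j : ℝ) / 2 ^ k)))) := Finset.sum_le_sum fun j _ => hstep j
      _ ≤ a * (4 * (2 ^ k * UU (2 ^ k + 1))) +
          (2 * (2 ^ k * UU (2 ^ k + 1)) + 2 * (2 ^ k * UU (2 ^ k + 1))) := by
          rw [Finset.sum_add_distrib, Finset.sum_add_distrib]
          exact add_le_add (ih (by omega)) (add_le_add g1 g2)
      _ = ((a + 1 : ℕ) : ℝ≥0∞) * (4 * (2 ^ k * UU (2 ^ k + 1))) := by
          push_cast
          ring

theorem stmt_AvgMoment (hInt : Stmt_RhoInt) (hFil : Stmt_RhoFilter) (hProb : Stmt_RhoProb)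
    (hAdd : Stmt_RhoAdd) (hUU : Stmt_UU) : Stmt_AvgMoment := by
  intro x
  obtain ⟨C, hC, hU4⟩ := hUU.2.2.2
  have hlog : 0 < Real.log (10 / 7) := Real.log_pos (by norm_num)
  refine ⟨x.natAbs * (4 * ((3 + C) / Real.log (10 / 7))), fun k => ?_⟩
  rw [eventually_atTop]
  refine ⟨x.natAbs, fun n hn => ?_⟩
  obtain ⟨s, hs, hx⟩ : ∃ s : ℤ, (s = 1 ∨ s = -1) ∧ x = s * (x.natAbs : ℤ) := by
    rcases le_total 0 x with h | h
    · exact ⟨1, Or.inl rfl, by omega⟩
    · exact ⟨-1, Or.inr rfl, by omega⟩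
  have hmeas : Measurable (fun h : Config => ENNReal.ofReal |(h x : ℝ)|) := by
    have : Measurable (fun h : Config => h x) := measurable_pi_apply x
    have h2 : Measurable (fun m : ℤ => ENNReal.ofReal |(m : ℝ)|) := Measurable.of_discrete
    exact h2.comp this
  have h1 : ∫⁻ h, ENNReal.ofReal |(h x : ℝ)| ∂(avg n k)
      = ((4 : ℝ≥0∞) ^ k)⁻¹ * ∑ j ∈ Finset.range (4 ^ k),
      ∫⁻ l, ENNReal.ofReal |((run l lin x - run l lin 0 : ℤ) : ℝ)|
        ∂(rho (box n) ((j : ℝ) / 2 ^ k)) := by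
    rw [avg, lintegral_smul_measure, lintegral_finsetSum_measure, smul_eq_mul]
    congr 1
    apply Finset.sum_congr rfl
    intro j _
    rw [lintegral_map hmeas (Measurable.of_discrete)]
    rfl
  rw [h1]
  have h2 := sum_abs hInt hFil hProb hAdd hUU n k s hs x.natAbs hn
  rw [← hx] at h2
  have h3 : UU (2 ^ k + 1) ≤ ENNReal.ofReal (2 ^ k * ((3 + C) / Real.log (10 / 7))) := by
    refine (hU4 (2 ^ k + 1) (by positivity)).trans (ENNReal.ofReal_le_ofReal ?_)
    rw [← mul_div_assoc]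
    apply div_le_div_of_nonneg_right _ hlog.le
    have : (1 : ℝ) ≤ 2 ^ k := one_le_pow₀ (by norm_num)
    nlinarith
  have h4 : ((4 : ℝ≥0∞) ^ k)⁻¹ * ((x.natAbs : ℝ≥0∞) * (4 * (2 ^ k *
      ENNReal.ofReal (2 ^ k * ((3 + C) / Real.log (10 / 7))))))
      = ENNReal.ofReal (x.natAbs * (4 * ((3 + C) / Real.log (10 / 7)))) := by
    have e1 : ((4 : ℝ≥0∞) ^ k) = ENNReal.ofReal (4 ^ k) := by
      rw [ENNReal.ofReal_pow (by norm_num)]; norm_num
    have e2 : ((2 : ℝ≥0∞) ^ k) = ENNReal.ofReal (2 ^ k) := by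
      rw [ENNReal.ofReal_pow (by norm_num)]; norm_num
    have e3 : (4 : ℝ≥0∞) = ENNReal.ofReal 4 := by norm_num
    have e4 : (x.natAbs : ℝ≥0∞) = ENNReal.ofReal (x.natAbs : ℝ) := by
      rw [ENNReal.ofReal_natCast]
    rw [e1, e2, e3, e4, ← ENNReal.ofReal_inv_of_pos (by positivity),
      ← ENNReal.ofReal_mul (by positivity), ← ENNReal.ofReal_mul (by positivity),
      ← ENNReal.ofReal_mul (by positivity), ← ENNReal.ofReal_mul (by positivity)]
    congr 1
    have h4 : (4 : ℝ) ^ k = 2 ^ k * 2 ^ k := by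
      rw [← mul_pow]; norm_num
    rw [h4]
    field_simp
  rw [← h4]
  gcongr
  exact h2.trans (by gcongr)

end Pool.BDep
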