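import Pool.Agent.Work.MP_c264fd_pr_helper94.Det

/-!
# Block Bridge: box invariance implies stationarity
-/

open MeasureTheory ProbabilityTheory Filter Topology
open scoped ENNReal NNReal

namespace Pool.BDep

namespace Bridge

lemma measurable_ring (a : ℤ) : Measurable (ring a) := by
  rw [measurable_pi_iff]
  intro y
  by_cases hy : y = a
  · subst hy
    simp_rw [ring_self]
    have h1 : ∀ z : ℤ, Measurable (fun h : Config => h z) := fun z => measurable_pi_apply z
    exact ((h1 (y - 1)).max (h1 (y + 1))).max ((h1 y).add_const 1)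
  · simp_rw [ring_ne hy]
    exact measurable_pi_apply y

lemma measurable_run (l : List ℤ) : Measurable (run l) := by
  induction l with
  | nil => exact measurable_id
  | cons a l ih => exact ih.comp (measurable_ring a)

lemma measurable_run_prod : Measurable (fun p : Config × List ℤ => run p.2 p.1) :=
  measurable_from_prod_countable_left measurable_run

lemma measurable_recenter : Measurable recenter := by
  rw [measurable_pi_iff]
  intro x
  exact (measurable_pi_apply x).sub (measurable_pi_apply 0)

lemma cylinder_local (D : Finset ℤ) (S : Set (∀ _ : D, ℤ)) (h h' : Config)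
    (hh : ∀ x ∈ D, h x = h' x) :
    (cylinder D S).indicator (fun _ => (1 : ℝ)) h = (cylinder D S).indicator (fun _ => 1) h' := by
  have h1 : h ∈ cylinder D S ↔ h' ∈ cylinder D S := by
    rw [mem_cylinder, mem_cylinder]
    have h2 : D.restrict h = D.restrict h' := by
      funext i
      exact hh i i.2
    rw [h2]
  by_cases hm : h ∈ cylinder D S
  · rw [Set.indicator_of_mem hm, Set.indicator_of_mem (h1.1 hm)]
  · rw [Set.indicator_of_notMem hm, Set.indicator_of_notMem (fun h => hm (h1.2 h))]

lemma cylinder_localBdd (D : Finset ℤ) (S : Set (∀ _ : D, ℤ)) :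
    LocalBdd D ((cylinder D S).indicator (fun _ => (1 : ℝ))) := by
  refine ⟨cylinder_local D S, fun h => ?_⟩
  by_cases hm : h ∈ cylinder D S
  · rw [Set.indicator_of_mem hm]; simp
  · rw [Set.indicator_of_notMem hm]; simp

end Bridge

open Bridge

theorem stmt_Bridge (hTU : Stmt_TrajUnique) (hCN : Stmt_ClockNice) (hCL : Stmt_ClockLaw)
    (hProb : Stmt_RhoProb) : Stmt_Bridge := by
  intro μ hμ hinv
  refine ⟨hμ, ?_⟩
  intro Ω mΩ P hP C g H hBD hg t ht
  have hlaw := fun n : ℕ => hCL Ω mΩ P hP C g hBD.clocks hBD.measurable hBD.indep (box n) t ht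
  have hnice := hCN Ω mΩ P hP C hBD.clocks
  have hconv : ∀ᵐ ω ∂P, ∀ x : ℤ, ∀ᶠ n in atTop,
      H t ω x = run (ringList (fun x => C x ω) (box n) t) (g ω) x := by
    filter_upwards [hnice, hBD.init, hBD.dyn] with ω h1 h2 h3 x
    have := hTU (fun x => C x ω) (fun t => H t ω) h1 h3 t x ht
    rw [h2] at this
    exact this
  have hpair : ∀ n : ℕ, AEMeasurable
      (fun ω => (g ω, ringList (fun x => C x ω) (box n) t)) P := fun n =>
    hBD.measurable.aemeasurable.prodMk (hlaw n).1
  have hrunm : ∀ n : ℕ, AEMeasurable
      (fun ω => run (ringList (fun x => C x ω) (box n) t) (g ω)) P := fun n =>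
    measurable_run_prod.comp_aemeasurable (hpair n)
  have hHm : AEMeasurable (H t) P := by
    refine aemeasurable_of_tendsto_metrizable_ae' hrunm ?_
    filter_upwards [hconv] with ω hω
    rw [tendsto_pi_nhds]
    intro x
    exact tendsto_const_nhds.congr' (hω x)
  refine ⟨hHm, ?_⟩
  have hrec : AEMeasurable (fun ω => recenter (H t ω)) P :=
    measurable_recenter.comp_aemeasurable hHm
  have hPm : IsProbabilityMeasure (P.map (fun ω => recenter (H t ω))) :=
    Measure.isProbabilityMeasure_map hrec
  refine ext_of_generate_finite (measurableCylinders (fun _ : ℤ => ℤ))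
    generateFrom_measurableCylinders.symm isPiSystem_measurableCylinders ?_ (by simp)
  intro A hA
  obtain ⟨D, S, hS, rfl⟩ := (mem_measurableCylinders A).1 hA
  have hAm : MeasurableSet (cylinder D S) := MeasurableSet.cylinder (α := fun _ : ℤ => ℤ) D hS
  set F : Config → ℝ := (cylinder D S).indicator (fun _ => (1 : ℝ)) with hF
  have hFloc : LocalBdd D F := cylinder_localBdd D S
  have hFm : Measurable F := measurable_const.indicator hAm
  have hGm : Measurable (fun p : Config × List ℤ => F (recenter (run p.2 p.1))) :=
    hFm.comp (measurable_recenter.comp measurable_run_prod)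
  have hint : ∀ n : ℕ, ∫ ω, F (recenter (run (ringList (fun x => C x ω) (box n) t) (g ω))) ∂P
      = ∫ h, ∫ l, F (recenter (run l h)) ∂(rho (box n) t) ∂μ := by
    intro n
    have := hProb (box n) t ht
    have e1 : ∫ ω, F (recenter (run (ringList (fun x => C x ω) (box n) t) (g ω))) ∂P
        = ∫ p : Config × List ℤ, F (recenter (run p.2 p.1))
          ∂(P.map (fun ω => (g ω, ringList (fun x => C x ω) (box n) t))) := by
      rw [integral_map (hpair n) hGm.aestronglyMeasurable]
    rw [e1, (hlaw n).2, hg, integral_prod]
    refine Integrable.of_bound hGm.aestronglyMeasurable 1 (Eventually.of_forall fun p => ?_)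
    rw [Real.norm_eq_abs]
    exact hFloc.2 _
  have hlim1 : Tendsto (fun n : ℕ =>
      ∫ ω, F (recenter (run (ringList (fun x => C x ω) (box n) t) (g ω))) ∂P) atTop
      (𝓝 (∫ ω, F (recenter (H t ω)) ∂P)) := by
    refine tendsto_integral_of_dominated_convergence (fun _ => (1 : ℝ)) ?_ ?_ ?_ ?_
    · intro n
      exact (hGm.comp_aemeasurable (hpair n)).aestronglyMeasurable
    · exact integrable_const 1
    · intro n
      exact Eventually.of_forall fun ω => by
        rw [Real.norm_eq_abs]
        exact hFloc.2 _
    · filter_upwards [hconv] with ω hω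
      have h1 : ∀ᶠ n : ℕ in atTop, ∀ x ∈ insert 0 D,
          H t ω x = run (ringList (fun x => C x ω) (box n) t) (g ω) x := by
        rw [eventually_all_finset]
        intro x _
        exact hω x
      refine tendsto_const_nhds.congr' ?_
      filter_upwards [h1] with n hn
      apply hFloc.1
      intro x hx
      have h2 := hn x (Finset.mem_insert_of_mem hx)
      have h3 := hn 0 (Finset.mem_insert_self 0 D)
      simp only [recenter, h2, h3]
  have hlim2 := hinv D F t hFloc ht
  have hEq : ∫ ω, F (recenter (H t ω)) ∂P = ∫ h, F h ∂μ := by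
    refine tendsto_nhds_unique hlim1 ?_
    simp_rw [hint]
    exact hlim2
  have hL : ∫ ω, F (recenter (H t ω)) ∂P
      = (P.map (fun ω => recenter (H t ω))).real (cylinder D S) := by
    rw [← integral_indicator_one hAm, ← integral_map hrec hFm.aestronglyMeasurable]
    rfl
  have hR : ∫ h, F h ∂μ = μ.real (cylinder D S) := by
    rw [← integral_indicator_one hAm]
    rfl
  rw [hL, hR] at hEq
  exact (measureReal_eq_measureReal_iff).1 hEq

end Pool.BDep
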