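import Pool.Agent.Work.MP_c264fd_pr_h14.Interface

/-!
# Block Det: deterministic facts about lists of rings
-/

namespace Pool.BDep

lemma run_nil (h : Config) : run [] h = h := rfl

lemma run_cons (x : ℤ) (l : List ℤ) (h : Config) : run (x :: l) h = run l (ring x h) := rfl

lemma ring_self (x : ℤ) (h : Config) :
    ring x h x = max (max (h (x - 1)) (h (x + 1))) (h x + 1) := by
  simp [ring]

lemma ring_ne {x y : ℤ} (hxy : y ≠ x) (h : Config) : ring x h y = h y := by
  simp [ring, hxy]

lemma gr_nil (z : ℤ) : gr z [] = z := rfl

lemma gl_nil (z : ℤ) : gl z [] = z := rfl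

lemma gr_cons (z x : ℤ) (l : List ℤ) :
    gr z (x :: l) = if x = gr z l then gr z l + 1 else gr z l := rfl

lemma gl_cons (z x : ℤ) (l : List ℤ) :
    gl z (x :: l) = if x = gl z l then gl z l - 1 else gl z l := rfl

lemma ring_mono (x : ℤ) {h h' : Config} (hh : ∀ y, h y ≤ h' y) (y : ℤ) :
    ring x h y ≤ ring x h' y := by
  by_cases hy : y = x
  · subst hy
    rw [ring_self, ring_self]
    have h1 := hh (y - 1)
    have h2 := hh (y + 1)
    have h3 := hh y
    omega
  · rw [ring_ne hy, ring_ne hy]
    exact hh y

lemma run_mono (l : List ℤ) : ∀ (h h' : Config), (∀ x, h x ≤ h' x) → ∀ x, run l h x ≤ run l h' x := by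
  induction l with
  | nil => intro h h' hh x; exact hh x
  | cons a l ih =>
    intro h h' hh x
    exact ih _ _ (ring_mono a hh) x

lemma ring_add_const (a : ℤ) (h : Config) (c : ℤ) :
    ring a (fun y => h y + c) = fun y => ring a h y + c := by
  funext y
  by_cases hy : y = a
  · subst hy
    rw [ring_self, ring_self]
    omega
  · rw [ring_ne hy, ring_ne hy]

lemma run_add_const (l : List ℤ) : ∀ (h : Config) (c : ℤ) (x : ℤ),
    run l (fun y => h y + c) x = run l h x + c := by
  induction l with
  | nil => intro h c x; rfl
  | cons a l ih =>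
    intro h c x
    rw [run_cons, run_cons, ring_add_const, ih]

lemma run_append (l l' : List ℤ) : ∀ (h : Config), run (l ++ l') h = run l' (run l h) := by
  induction l with
  | nil => intro h; rfl
  | cons a l ih =>
    intro h
    rw [List.cons_append, run_cons, run_cons, ih]

lemma le_ring (a : ℤ) (h : Config) (x : ℤ) : h x ≤ ring a h x := by
  by_cases hx : x = a
  · subst hx
    rw [ring_self]
    omega
  · rw [ring_ne hx]

lemma le_run (l : List ℤ) : ∀ (h : Config) (x : ℤ), h x ≤ run l h x := by
  induction l with
  | nil => intro h x; exact le_refl _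
  | cons a l ih =>
    intro h x
    exact (le_ring a h x).trans (ih _ x)

lemma run_filter_le (l : List ℤ) (p : ℤ → Bool) : ∀ (h : Config) (x : ℤ),
    run (l.filter p) h x ≤ run l h x := by
  induction l with
  | nil => intro h x; exact le_refl _
  | cons a l ih =>
    intro h x
    by_cases ha : p a = true
    · rw [List.filter_cons_of_pos ha, run_cons, run_cons]
      exact ih _ x
    · rw [List.filter_cons_of_neg ha, run_cons]
      exact (ih _ x).trans (run_mono l _ _ (le_ring a h) x)

lemma run_map_add (l : List ℤ) (a : ℤ) : ∀ (h : Config) (x : ℤ),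
    run (l.map (· + a)) h x = run l (fun y => h (y + a)) (x - a) := by
  induction l with
  | nil => intro h x; simp [run_nil]
  | cons b l ih =>
    intro h x
    rw [List.map_cons, run_cons, run_cons, ih]
    congr 1
    funext y
    by_cases hy : y = b
    · subst hy
      rw [ring_self, ring_self]
      have e1 : y + a - 1 = y - 1 + a := by ring
      have e2 : y + a + 1 = y + 1 + a := by ring
      rw [e1, e2]
    · rw [ring_ne hy, ring_ne (by omega)]

lemma run_map_neg (l : List ℤ) : ∀ (h : Config) (x : ℤ),
    run (l.map (fun y => -y)) h x = run l (refl h) (-x) := by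
  induction l with
  | nil => intro h x; simp [run_nil, refl]
  | cons b l ih =>
    intro h x
    rw [List.map_cons, run_cons, run_cons, ih]
    congr 1
    funext y
    by_cases hy : y = b
    · subst hy
      rw [ring_self]
      simp only [refl]
      rw [ring_self]
      have e1 : -y - 1 = -(y + 1) := by ring
      have e2 : -y + 1 = -(y - 1) := by ring
      rw [e1, e2, max_comm (h (-(y + 1)))]
    · rw [ring_ne hy]
      simp only [refl]
      rw [ring_ne (by omega)]

lemma ends_bounds (l : List ℤ) : ∀ z : ℤ,
    gl z l ≤ z ∧ z ≤ gr z l ∧ z - l.length ≤ gl z l ∧ gr z l ≤ z + l.length := by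
  induction l with
  | nil => intro z; simp [gl_nil, gr_nil]
  | cons a l ih =>
    intro z
    obtain ⟨h1, h2, h3, h4⟩ := ih z
    rw [gl_cons, gr_cons, List.length_cons]
    push_cast
    split_ifs <;> omega

lemma run_ge_ends (l : List ℤ) : ∀ (h : Config) (z : ℤ),
    h (gr z l) ≤ run l h z ∧ h (gl z l) ≤ run l h z := by
  induction l with
  | nil => intro h z; simp [gl_nil, gr_nil, run_nil]
  | cons a l ih =>
    intro h z
    obtain ⟨h1, h2⟩ := ih (ring a h) z
    rw [gl_cons, gr_cons, run_cons]
    constructor
    · refine le_trans ?_ h1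
      split_ifs with hc
      · rw [← hc, ring_self]; omega
      · rw [ring_ne (fun h => hc h.symm)]
    · refine le_trans ?_ h2
      split_ifs with hc
      · rw [← hc, ring_self]; omega
      · rw [ring_ne (fun h => hc h.symm)]

/-- Optimal starting point. -/
lemma exists_opt (l : List ℤ) : ∀ (h0 : Config) (z : ℤ),
    ∃ y ∈ Finset.Icc (gl z l) (gr z l), ∃ k : ℤ, 0 ≤ k ∧ k ≤ l.length ∧
      (∀ h : Config, h y + k ≤ run l h z) ∧ run l h0 z = h0 y + k := by
  induction l with
  | nil =>
    intro h0 z
    refine ⟨z, by simp [gl_nil, gr_nil], 0, le_refl _, by simp, ?_, by simp [run_nil]⟩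
    intro h
    simp [run_nil]
  | cons a l ih =>
    intro h0 z
    obtain ⟨y, hy, k, hk0, hk, hle, heq⟩ := ih (ring a h0) z
    rw [Finset.mem_Icc] at hy
    have hlen : ((a :: l).length : ℤ) = (l.length : ℤ) + 1 := by
      rw [List.length_cons]; push_cast; ring
    by_cases hya : y = a
    · subst hya
      have hmem1 : gl z (y :: l) ≤ y - 1 := by
        rw [gl_cons]; split_ifs <;> omega
      have hmem2 : y + 1 ≤ gr z (y :: l) := by
        rw [gr_cons]; split_ifs <;> omega
      rw [ring_self] at heq
      rcases le_total (h0 y + 1) (max (h0 (y - 1)) (h0 (y + 1))) with hc | hc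
      · rcases le_total (h0 (y - 1)) (h0 (y + 1)) with hd | hd
        · refine ⟨y + 1, ?_, k, hk0, by omega, ?_, ?_⟩
          · rw [Finset.mem_Icc]; omega
          · intro h
            have := hle (ring y h)
            rw [ring_self] at this
            rw [run_cons]
            omega
          · rw [run_cons, heq]
            omega
        · refine ⟨y - 1, ?_, k, hk0, by omega, ?_, ?_⟩
          · rw [Finset.mem_Icc]; omega
          · intro h
            have := hle (ring y h)
            rw [ring_self] at this
            rw [run_cons]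
            omega
          · rw [run_cons, heq]
            omega
      · refine ⟨y, ?_, k + 1, by omega, by omega, ?_, ?_⟩
        · rw [Finset.mem_Icc]; omega
        · intro h
          have := hle (ring y h)
          rw [ring_self] at this
          rw [run_cons]
          omega
        · rw [run_cons, heq]
          omega
    · refine ⟨y, ?_, k, hk0, by omega, ?_, ?_⟩
      · rw [Finset.mem_Icc, gl_cons, gr_cons]
        constructor
        · split_ifs <;> omega
        · split_ifs <;> omega
      · intro h
        have := hle (ring a h)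
        rw [ring_ne hya] at this
        rwa [run_cons]
      · rw [run_cons, heq, ring_ne hya]

lemma run_local (l : List ℤ) (h h' : Config) (z : ℤ)
    (hh : ∀ y ∈ Finset.Icc (gl z l) (gr z l), h y = h' y) : run l h z = run l h' z := by
  apply le_antisymm
  · obtain ⟨y, hy, k, -, -, hle, heq⟩ := exists_opt l h z
    rw [heq, hh y hy]
    exact hle h'
  · obtain ⟨y, hy, k, -, -, hle, heq⟩ := exists_opt l h' z
    rw [heq, ← hh y hy]
    exact hle h

lemma run_filter_eq (l : List ℤ) : ∀ (h : Config) (z : ℤ) (p : ℤ → Bool),
    (∀ y ∈ Finset.Icc (gl z l) (gr z l), p y = true) →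
    run (l.filter p) h z = run l h z ∧ gl z (l.filter p) = gl z l ∧
      gr z (l.filter p) = gr z l := by
  induction l with
  | nil => intro h z p _; simp
  | cons a l ih =>
    intro h z p hp
    have hsub1 : gl z (a :: l) ≤ gl z l := by
      rw [gl_cons]; split_ifs <;> omega
    have hsub2 : gr z l ≤ gr z (a :: l) := by
      rw [gr_cons]; split_ifs <;> omega
    have hp' : ∀ y ∈ Finset.Icc (gl z l) (gr z l), p y = true := by
      intro y hy
      rw [Finset.mem_Icc] at hy
      exact hp y (by rw [Finset.mem_Icc]; omega)
    by_cases ha : p a = true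
    · rw [List.filter_cons_of_pos ha, run_cons, run_cons]
      obtain ⟨h1, h2, h3⟩ := ih (ring a h) z p hp'
      refine ⟨h1, ?_, ?_⟩
      · rw [gl_cons, gl_cons, h2]
      · rw [gr_cons, gr_cons, h3]
    · rw [List.filter_cons_of_neg ha, run_cons]
      obtain ⟨h1, h2, h3⟩ := ih h z p hp'
      have hb := ends_bounds l z
      have hout : ¬ (gl z l ≤ a ∧ a ≤ gr z l) := by
        intro hc
        exact ha (hp' a (by rw [Finset.mem_Icc]; exact hc))
      refine ⟨?_, ?_, ?_⟩
      · rw [h1]
        apply run_local
        intro y hy
        rw [Finset.mem_Icc] at hy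
        rw [ring_ne]
        rintro rfl
        exact hout hy
      · rw [h2, gl_cons, if_neg]
        omega
      · rw [h3, gr_cons, if_neg]
        omega

lemma ends_append (l l' : List ℤ) (z : ℤ) :
    gl z (l ++ l') ≤ gl z l' ∧ gr z l' ≤ gr z (l ++ l') := by
  induction l with
  | nil => simp
  | cons a l ih =>
    rw [List.cons_append, gl_cons, gr_cons]
    split_ifs <;> omega

theorem stmt_Det : Stmt_Det := by
  refine ⟨run_mono, run_add_const, run_append, le_run, fun l h p x => run_filter_le l p h x,
    fun l h a x => run_map_add l a h x, run_map_neg, ends_bounds, run_ge_ends, run_local,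
    run_filter_eq, ends_append, ?_, ?_⟩
  · intro l h z
    obtain ⟨y, hy, k, -, hk, -, heq⟩ := exists_opt l h z
    exact ⟨y, hy, by omega⟩
  · intro l z
    obtain ⟨y, hy, k, -, -, hle, heq⟩ := exists_opt l 0 z
    refine ⟨y, hy, fun h => ?_⟩
    have h0 : (0 : Config) y = 0 := rfl
    rw [heq, h0]
    have := hle h
    omega

end Pool.BDep
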